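import Mathlib
import Pool.Agent.Helper503.WG

open Set Filter Topology Polynomial WeakDual

namespace Pool.Agent.Results.MP_6855fb_an.BanachVsC

/-! ### Definitions used in the statement -/

/-- Weakly algebraically closed: every monic polynomial of degree `> 1` with invertible
discriminant is a product of two monic polynomials of positive degree. -/
def WeaklyAlgClosed (R : Type*) [CommRing R] : Prop :=
  ∀ p : R[X], p.Monic → 1 < p.natDegree → IsUnit p.discr →
    ∃ q r : R[X], q.Monic ∧ r.Monic ∧ 0 < q.natDegree ∧ 0 < r.natDegree ∧ p = q * r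

/-! ### The result -/

open Pool.Agent.Helper503.WAC

/-- There is a commutative unital complex Banach algebra `A` with connected maximal ideal space
`M_A` such that `A` is weakly algebraically closed and `C(M_A)` is not. -/
theorem result :
    ∃ (A : Type) (_ : NormedCommRing A) (_ : NormedAlgebra ℂ A),
      CompleteSpace A ∧ ‖(1 : A)‖ = 1 ∧ ConnectedSpace (characterSpace ℂ A) ∧
      WeaklyAlgClosed A ∧ ¬ WeaklyAlgClosed C(characterSpace ℂ A, ℂ) := by
  obtain ⟨m0, hm0⟩ := exists_m0
  have hR : HasRt (BB fun _ => m0) := hm0 _ fun _ => le_rfl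
  refine ⟨BB (fun _ => m0), inferInstance, inferInstance, inferInstance, ?_, conn _,
    fac_of_hasRt hR, ?_⟩
  · show ‖(1 : BoundedContinuousFunction YY ℂ)‖ = 1
    exact norm_one
  · intro hw
    exact not_hasRt_C (charHomeo (restr_bij0 fun _ => m0)) (hasRt_of_fac hw)

end Pool.Agent.Results.MP_6855fb_an.BanachVsC
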