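import Mathlib
import Pool.Agent.Helper503.WG

open Set Filter Topology Polynomial WeakDual

namespace Pool.Agent.Results.MP_6855fb_an.CodimOne

/-! ### Definitions used in the statement -/

/-- Weakly algebraically closed: every monic polynomial of degree `> 1` with invertible
discriminant is a product of two monic polynomials of positive degree. -/
def WeaklyAlgClosed (R : Type*) [CommRing R] : Prop :=
  ∀ p : R[X], p.Monic → 1 < p.natDegree → IsUnit p.discr →
    ∃ q r : R[X], q.Monic ∧ r.Monic ∧ 0 < q.natDegree ∧ 0 < r.natDegree ∧ p = q * r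

/-- A uniform algebra on the compact space `X`: a closed subalgebra of `C(X)` which separates the
points of `X` (a `Subalgebra` contains the constants). -/
structure IsUniformAlgebra {X : Type*} [TopologicalSpace X] [CompactSpace X]
    (A : Subalgebra ℂ C(X, ℂ)) : Prop where
  closed : IsClosed (A : Set C(X, ℂ))
  separates : ∀ x y : X, x ≠ y → ∃ f ∈ A, f x ≠ f y

/-- Restriction of characters along the algebra homomorphism `j : R → S` is a homeomorphism
`M_S → M_R` of the maximal ideal spaces. -/
def SameSpectrum {R S : Type*} [NormedCommRing R] [NormedAlgebra ℂ R] [NormedCommRing S]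
    [NormedAlgebra ℂ S] (j : R →ₐ[ℂ] S) : Prop :=
  ∃ Φ : characterSpace ℂ S ≃ₜ characterSpace ℂ R,
    ∀ (χ : characterSpace ℂ S) (a : R), Φ χ a = χ (j a)

/-- The maximal ideal space is connected (in particular not empty). -/
def ConnectedSpectrum (R : Type*) [NormedCommRing R] [NormedAlgebra ℂ R] : Prop :=
  ConnectedSpace (characterSpace ℂ R)

/-- The range of `j : R → S` has vector space codimension one in `S`. -/
def HasCodimOne {R S : Type*} [CommRing R] [Algebra ℂ R] [CommRing S] [Algebra ℂ S]
    (j : R →ₐ[ℂ] S) : Prop :=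
  Module.finrank ℂ (S ⧸ LinearMap.range j.toLinearMap) = 1

/-! ### The result -/

open Pool.Agent.Helper503.WAC

/-- There are a compact Hausdorff space `X` and uniform algebras `A ⊆ B` on `X`, with the same
connected maximal ideal space, `A` of codimension one in `B`, such that `A` is weakly
algebraically closed and `B` is not. -/
theorem result :
    ∃ (X : Type) (_ : TopologicalSpace X) (_ : CompactSpace X) (_ : T2Space X)
      (A B : Subalgebra ℂ C(X, ℂ)) (h : A ≤ B),
      IsUniformAlgebra A ∧ IsUniformAlgebra B ∧ SameSpectrum (Subalgebra.inclusion h) ∧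
      ConnectedSpectrum A ∧ HasCodimOne (Subalgebra.inclusion h) ∧
      WeaklyAlgClosed A ∧ ¬ WeaklyAlgClosed B := by
  obtain ⟨X, i1, i2, i3, A, B, h, ⟨hcA, hcB, hsep, hΦ, hconn, hfin⟩, hA, hB⟩ := main
  refine ⟨X, i1, i2, i3, A, B, h, ⟨hcA, hsep⟩, ⟨hcB, fun x y hxy => ?_⟩, hΦ, hconn, ?_, ?_, ?_⟩
  · obtain ⟨f, hf, hne⟩ := hsep x y hxy
    exact ⟨f, h hf, hne⟩
  · have e : LinearMap.range (Subalgebra.inclusion h).toLinearMap
        = (Subalgebra.toSubmodule A).comap B.val.toLinearMap := by
      ext b
      constructor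
      · rintro ⟨a, rfl⟩
        exact a.2
      · intro hb
        exact ⟨⟨b.1, hb⟩, rfl⟩
    unfold HasCodimOne
    rw [e]
    exact hfin
  · obtain ⟨x⟩ := hconn.toNonempty
    have hnt : Nontrivial A := by
      refine ⟨0, 1, fun h01 => ?_⟩
      have h1 : x (0 : A) = x (1 : A) := by rw [h01]
      rw [map_zero, map_one] at h1
      exact zero_ne_one h1
    exact fac_of_hasRt hA
  · intro hw
    exact hB (hasRt_of_fac hw)

end Pool.Agent.Results.MP_6855fb_an.CodimOne
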